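import Pool.Agent.H341Q.PNMain
import Pool.Agent.Helper639.ForceCH

set_option autoImplicit false

open Set Topology MeasureTheory Cardinal

namespace Pool.Agent.Results.MP_2087e7_lc.ForcedInequality

open Pool.Agent.Helper639.ForceCH (Om OmegaOnePreserved CHHolds)

section defs

universe u

variable {X : Type u} [TopologicalSpace X]

/-- `F` is an `F_σ` set. -/
def IsFsigma (F : Set X) : Prop :=
  ∃ C : ℕ → Set X, (∀ n, IsClosed (C n)) ∧ F = ⋃ n, C n

/-- `A ∈ PM_σ`. -/
def PMsigma (A : Set X) : Prop :=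
  ∀ P : ℕ → Set X, (∀ n, Perfect (P n)) →
    ∃ F : Set X, IsFsigma F ∧ A ⊆ F ∧ ∀ n, IsMeagre ((Subtype.val : P n → X) ⁻¹' F)

/-- `A ∈ UN`. -/
def UN [MeasurableSpace X] (A : Set X) : Prop :=
  ∀ μ : Measure X, IsFiniteMeasure μ → (∀ x, μ {x} = 0) → μ A = 0

/-- `A ∈ PN_σ`. -/
def PNsigma [MeasurableSpace X] (A : Set X) : Prop :=
  ∀ μ : Measure X, IsFiniteMeasure μ → (∀ x, μ {x} = 0) →
    ∃ F : Set X, IsFsigma F ∧ A ⊆ F ∧ μ F = 0

end defs

/-- The sentence named by `CHHolds P`, evaluated in the universe: a family of sets of natural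
numbers indexed by `ω₁` contains every set of natural numbers. -/
def CH : Prop := ∃ E : Om → ℕ → Prop, ∀ x : ℕ → Prop, ∃ a : Om, ∀ n : ℕ, x n ↔ E a n

theorem ch_iff : CH ↔ (𝔠 : Cardinal.{0}) = ℵ₁ := by
  constructor
  · rintro ⟨E, hE⟩
    refine le_antisymm ?_ Cardinal.aleph_one_le_continuum
    have hs : Function.Surjective (fun a : Om => {n : ℕ | E a n}) := by
      intro x
      obtain ⟨a, ha⟩ := hE (fun n => n ∈ x)
      refine ⟨a, ?_⟩
      ext n
      exact (ha n).symm
    have h := Cardinal.mk_le_of_surjective hs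
    rw [Cardinal.mk_set, Cardinal.mk_nat, Cardinal.two_power_aleph0] at h
    refine h.trans (le_of_eq ?_)
    show #((ℵ₁ : Cardinal.{0}).ord.ToType) = ℵ₁
    rw [Cardinal.mk_toType, Cardinal.card_ord]
  · intro h
    have h1 : #(Set ℕ) ≤ #Om := by
      rw [Cardinal.mk_set, Cardinal.mk_nat, Cardinal.two_power_aleph0, h]
      show (ℵ₁ : Cardinal.{0}) ≤ #((ℵ₁ : Cardinal.{0}).ord.ToType)
      rw [Cardinal.mk_toType, Cardinal.card_ord]
    obtain ⟨f⟩ := h1
    have hs := Function.invFun_surjective f.injective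
    refine ⟨fun a n => n ∈ Function.invFun f a, fun x => ?_⟩
    obtain ⟨a, ha⟩ := hs {n | x n}
    refine ⟨a, fun n => ?_⟩
    show x n ↔ n ∈ Function.invFun (⇑f) a
    rw [ha]
    rfl

universe u

/-- Some forcing notion forces that `ω₁` is preserved and the continuum hypothesis holds; and the
continuum hypothesis implies that in every nonempty perfect Polish space `PN_σ ≠ PM_σ ∩ UN`. So
`PN_σ = PM_σ ∩ UN` is not a theorem of ZFC, in any nonempty perfect Polish space. -/
theorem result :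
    (∃ (P : Type) (_ : Preorder P), Nonempty P ∧
      ∀ p : P, p ∈ OmegaOnePreserved P ∧ p ∈ CHHolds P) ∧
    (CH → ∀ (X : Type u) [TopologicalSpace X] [PolishSpace X] [PerfectSpace X] [Nonempty X]
      [MeasurableSpace X] [BorelSpace X], ∃ A : Set X, PMsigma A ∧ UN A ∧ ¬ PNsigma A) := by
  refine ⟨?_, ?_⟩
  · obtain ⟨P, i, hn, h⟩ := Pool.Agent.Helper639.ForceCH.exists_forcing
    exact ⟨P, i, hn, fun p => ⟨(h p).1, (h p).2.2⟩⟩
  · intro hCH X _ _ _ _ _ _
    exact Pool.Agent.H341Q.PN.exists_general (ch_iff.1 hCH)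

end Pool.Agent.Results.MP_2087e7_lc.ForcedInequality
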